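import Pool.Agent.helper55.RI.Spec

/-!
# Project ri (MP_2bd605_lc), module X2
-/

set_option autoImplicit false

namespace Pool.Agent.RI

open Pool.Agent.helper62 Prog Function Pool.Agent.helper81.PL

theorem X2 : X2_stmt := by
  intro f hf
  obtain ⟨P, c, hP⟩ := hf
  obtain ⟨m, hm0⟩ := Pool.Agent.H54.PT.exists_supp P
  have hm : Pool.Agent.H54.PT.Supp (m + 1) P := hm0.mono (by omega)
  refine ⟨Prog.toPolyTime (Pool.Agent.H54.PT.toFin m P) (Fin.ofNat (m + 1) 0)
    (Fin.ofNat (m + 1) 0) _ _ f c (fun a => ?_)⟩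
  obtain ⟨n, hn, he⟩ := hP a
  have h1 := Pool.Agent.H54.PT.exec_toFin he hm
  rw [Pool.Agent.H54.PT.update_val (by omega), Pool.Agent.H54.PT.update_val (by omega)] at h1
  exact ⟨n, hn, h1⟩

end Pool.Agent.RI
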